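import Pool.Agent.Lib.MP_dbccd7_gt.Defs
import Pool.Agent.Lib.MP_cb27ba_nt.BD.Weil
import Pool.Agent.Lib.MP_cb27ba_nt.BD.Det

section
/-!
# Lorentz matrices and their action on hyperbolic space
-/
set_option autoImplicit false

namespace Pool.Agent.Lib.MPdbccd7.LatM

open Matrix

variable {n : ℕ}

/-- the Lorentz form -/
def lf (x y : Fin (n + 1) → ℝ) : ℝ := -(x 0 * y 0) + ∑ i : Fin n, x i.succ * y i.succ

theorem lf_eq (x y : Fin (n + 1) → ℝ) : lf x y = x ⬝ᵥ (eta n *ᵥ y) := by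
  simp only [lf, dotProduct, eta, Matrix.mulVec_diagonal, Fin.sum_univ_succ, Fin.cons_zero,
    Fin.cons_succ]
  simp

theorem lf_comm (x y : Fin (n + 1) → ℝ) : lf x y = lf y x := by
  simp only [lf, mul_comm]

theorem lf_add_right (x y z : Fin (n + 1) → ℝ) : lf x (y + z) = lf x y + lf x z := by
  simp only [lf_eq, Matrix.mulVec_add, dotProduct_add]

theorem lf_smul_right (x y : Fin (n + 1) → ℝ) (t : ℝ) : lf x (t • y) = t * lf x y := by
  simp only [lf_eq, Matrix.mulVec_smul, dotProduct_smul, smul_eq_mul]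

theorem lf_sum_right {ι : Type} (s : Finset ι) (x : Fin (n + 1) → ℝ)
    (y : ι → Fin (n + 1) → ℝ) : lf x (∑ i ∈ s, y i) = ∑ i ∈ s, lf x (y i) := by
  classical
  induction s using Finset.induction_on with
  | empty => simp [lf]
  | insert a s ha ih => rw [Finset.sum_insert ha, Finset.sum_insert ha, lf_add_right, ih]

theorem lor_lf {A : Matrix (Fin (n + 1)) (Fin (n + 1)) ℝ} (hA : Aᵀ * eta n * A = eta n)
    (x y : Fin (n + 1) → ℝ) : lf (A *ᵥ x) (A *ᵥ y) = lf x y := by
  rw [lf_eq, lf_eq, ← Matrix.vecMul_transpose, ← Matrix.dotProduct_mulVec, Matrix.mulVec_mulVec,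
    Matrix.mulVec_mulVec, hA]

theorem eta_sq : eta n * eta n = 1 := by
  rw [eta, Matrix.diagonal_mul_diagonal, ← Matrix.diagonal_one]
  congr 1
  funext i
  refine Fin.cases ?_ (fun j => ?_) i <;> simp

theorem inv_mul_lor {A : Matrix (Fin (n + 1)) (Fin (n + 1)) ℝ} (hA : Aᵀ * eta n * A = eta n) :
    (eta n * Aᵀ * eta n) * A = 1 := by
  rw [Matrix.mul_assoc, Matrix.mul_assoc, ← Matrix.mul_assoc Aᵀ, hA, eta_sq]

theorem mul_inv_lor {A : Matrix (Fin (n + 1)) (Fin (n + 1)) ℝ} (hA : Aᵀ * eta n * A = eta n) :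
    A * (eta n * Aᵀ * eta n) = 1 := mul_eq_one_comm.1 (inv_mul_lor hA)

theorem transpose_lor {A : Matrix (Fin (n + 1)) (Fin (n + 1)) ℝ} (hA : Aᵀ * eta n * A = eta n) :
    A * eta n * Aᵀ = eta n := by
  have h := mul_inv_lor hA
  calc A * eta n * Aᵀ = A * eta n * Aᵀ * (eta n * eta n) := by rw [eta_sq, Matrix.mul_one]
    _ = (A * (eta n * Aᵀ * eta n)) * eta n := by simp only [Matrix.mul_assoc]
    _ = eta n := by rw [h, Matrix.one_mul]

theorem eta_transpose : (eta n)ᵀ = eta n := by rw [eta, Matrix.diagonal_transpose]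

theorem row_zero {A : Matrix (Fin (n + 1)) (Fin (n + 1)) ℝ} (hA : Aᵀ * eta n * A = eta n) :
    A 0 0 ^ 2 = 1 + ∑ i : Fin n, A 0 i.succ ^ 2 := by
  have h := congrFun (congrFun (transpose_lor hA) 0) 0
  have h2 : lf (A 0) (A 0) = -1 := by
    rw [lf_eq]
    have h3 : (A * eta n * Aᵀ) 0 0 = A 0 ⬝ᵥ (eta n *ᵥ A 0) := by
      rw [Matrix.mul_assoc, Matrix.mul_apply]
      simp only [dotProduct, Matrix.mulVec, Matrix.mul_apply, Matrix.transpose_apply]
    rw [← h3, h]
    simp [eta]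
  rw [lf] at h2
  have h4 : ∑ i : Fin n, A 0 i.succ * A 0 i.succ = ∑ i : Fin n, A 0 i.succ ^ 2 :=
    Finset.sum_congr rfl fun i _ => (sq _).symm
  rw [h4] at h2
  nlinarith

/-- columns -/
theorem col_lf {A : Matrix (Fin (n + 1)) (Fin (n + 1)) ℝ} (hA : Aᵀ * eta n * A = eta n)
    (j : Fin (n + 1)) : lf (fun i => A i j) (fun i => A i j) = eta n j j := by
  have h := congrFun (congrFun hA j) j
  rw [← h, lf_eq, Matrix.mul_assoc, Matrix.mul_apply]
  simp only [dotProduct, Matrix.mulVec, Matrix.mul_apply, Matrix.transpose_apply]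

theorem one_le_zz {A : Matrix (Fin (n + 1)) (Fin (n + 1)) ℝ} (hA : IsLor A) : 1 ≤ A 0 0 := by
  have h := row_zero hA.1
  have h2 : 0 ≤ ∑ i : Fin n, A 0 i.succ ^ 2 := Finset.sum_nonneg fun i _ => sq_nonneg _
  nlinarith [hA.2]

theorem y0_pos (y : E n) : 0 < y0 y := by
  apply Real.sqrt_pos.2
  have : 0 ≤ ∑ i, y i ^ 2 := Finset.sum_nonneg fun i _ => sq_nonneg _
  linarith

theorem y0_sq (y : E n) : y0 y ^ 2 = 1 + ∑ i, y i ^ 2 := by
  apply Real.sq_sqrt
  have : 0 ≤ ∑ i, y i ^ 2 := Finset.sum_nonneg fun i _ => sq_nonneg _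
  linarith

theorem one_le_y0 (y : E n) : 1 ≤ y0 y := by
  have h := y0_sq y
  have h1 := y0_pos y
  have h2 : 0 ≤ ∑ i, y i ^ 2 := Finset.sum_nonneg fun i _ => sq_nonneg _
  nlinarith

theorem emb_zero (y : E n) : emb y 0 = y0 y := rfl

theorem emb_succ (y : E n) (i : Fin n) : emb y i.succ = y i := rfl

theorem lf_emb (y : E n) : lf (emb y) (emb y) = -1 := by
  have h := y0_sq y
  simp only [lf, emb_zero, emb_succ]
  have h4 : ∑ i : Fin n, y i * y i = ∑ i : Fin n, y i ^ 2 :=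
    Finset.sum_congr rfl fun i _ => (sq _).symm
  rw [h4]
  nlinarith

theorem q_eq (x y : E n) : q x y = -lf (emb x) (emb y) := by
  simp only [q, lf, emb_zero, emb_succ]
  ring

theorem eq_emb {x : Fin (n + 1) → ℝ} (h : lf x x = -1) (h0 : 0 < x 0) :
    x = emb (WithLp.toLp 2 fun i => x i.succ) := by
  funext i
  refine Fin.cases ?_ (fun j => rfl) i
  rw [emb_zero]
  unfold y0
  rw [lf] at h
  have h4 : ∑ i : Fin n, x i.succ * x i.succ = ∑ i : Fin n, x i.succ ^ 2 :=
    Finset.sum_congr rfl fun i _ => (sq _).symm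
  rw [h4] at h
  have h5 : 1 + ∑ i, (WithLp.toLp 2 fun i : Fin n => x i.succ : E n) i ^ 2 = x 0 ^ 2 := by
    change 1 + ∑ i : Fin n, x i.succ ^ 2 = x 0 ^ 2
    nlinarith
  rw [h5, Real.sqrt_sq h0.le]

/-- reversed Cauchy-Schwarz estimates -/
theorem cs {a b : ℝ} {u v : Fin n → ℝ} (ha : 0 < a) (hb : 0 < b) (hu : a ^ 2 = 1 + ∑ i, u i ^ 2)
    (hv : b ^ 2 = 1 + ∑ i, v i ^ 2) : |∑ i, u i * v i| < a * b := by
  have h1 : (∑ i, u i * v i) ^ 2 ≤ (∑ i, u i ^ 2) * ∑ i, v i ^ 2 :=
    Finset.sum_mul_sq_le_sq_mul_sq _ _ _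
  have h2 : 0 ≤ ∑ i, u i ^ 2 := Finset.sum_nonneg fun i _ => sq_nonneg _
  have h3 : 0 ≤ ∑ i, v i ^ 2 := Finset.sum_nonneg fun i _ => sq_nonneg _
  apply abs_lt_of_sq_lt_sq _ (by positivity)
  nlinarith

theorem mulVec_zero' (A : Matrix (Fin (n + 1)) (Fin (n + 1)) ℝ) (x : Fin (n + 1) → ℝ) :
    (A *ᵥ x) 0 = A 0 0 * x 0 + ∑ i : Fin n, A 0 i.succ * x i.succ := by
  rw [Matrix.mulVec, dotProduct, Fin.sum_univ_succ]

theorem abs_sub_lt {A : Matrix (Fin (n + 1)) (Fin (n + 1)) ℝ} (hA : IsLor A) (y : E n) :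
    |(A *ᵥ emb y) 0 - A 0 0 * y0 y| < A 0 0 * y0 y := by
  rw [mulVec_zero', emb_zero, add_sub_cancel_left]
  exact cs hA.2 (y0_pos y) (row_zero hA.1) (y0_sq y)

theorem mulVec_emb_pos {A : Matrix (Fin (n + 1)) (Fin (n + 1)) ℝ} (hA : IsLor A) (y : E n) :
    0 < (A *ᵥ emb y) 0 := by
  have := abs_lt.1 (abs_sub_lt hA y)
  linarith [this.1]

theorem emb_act {A : Matrix (Fin (n + 1)) (Fin (n + 1)) ℝ} (hA : IsLor A) (y : E n) :
    emb (act A y) = A *ᵥ emb y := by
  refine (eq_emb ?_ (mulVec_emb_pos hA y)).symm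
  rw [lor_lf hA.1, lf_emb]

theorem y0_act {A : Matrix (Fin (n + 1)) (Fin (n + 1)) ℝ} (hA : IsLor A) (y : E n) :
    y0 (act A y) = (A *ᵥ emb y) 0 := by
  rw [← emb_act hA, emb_zero]

theorem y0_act_le {A : Matrix (Fin (n + 1)) (Fin (n + 1)) ℝ} (hA : IsLor A) (y : E n) :
    y0 (act A y) ≤ 2 * A 0 0 * y0 y := by
  rw [y0_act hA]
  have := abs_lt.1 (abs_sub_lt hA y)
  linarith [this.2]

theorem IsLor.one : IsLor (1 : Matrix (Fin (n + 1)) (Fin (n + 1)) ℝ) :=
  ⟨by simp, by simp⟩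

theorem IsLor.mul {A B : Matrix (Fin (n + 1)) (Fin (n + 1)) ℝ} (hA : IsLor A) (hB : IsLor B) :
    IsLor (A * B) := by
  constructor
  · calc (A * B)ᵀ * eta n * (A * B) = Bᵀ * (Aᵀ * eta n * A) * B := by
          simp only [Matrix.transpose_mul, Matrix.mul_assoc]
      _ = eta n := by rw [hA.1, hB.1]
  · have h1 : (A * B) 0 0 = A 0 0 * B 0 0 + ∑ i : Fin n, A 0 i.succ * B i.succ 0 := by
      rw [Matrix.mul_apply, Fin.sum_univ_succ]
    have h2 : B 0 0 ^ 2 = 1 + ∑ i : Fin n, B i.succ 0 ^ 2 := by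
      have := col_lf hB.1 0
      rw [lf] at this
      have h4 : ∑ i : Fin n, B i.succ 0 * B i.succ 0 = ∑ i : Fin n, B i.succ 0 ^ 2 :=
        Finset.sum_congr rfl fun i _ => (sq _).symm
      simp only [eta, Matrix.diagonal_apply_eq, Fin.cons_zero] at this
      rw [h4] at this
      nlinarith
    have h3 := cs hA.2 hB.2 (row_zero hA.1) h2
    rw [h1]
    linarith [(abs_lt.1 h3).1]

/-- the inverse matrix -/
noncomputable def li (A : Matrix (Fin (n + 1)) (Fin (n + 1)) ℝ) :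
    Matrix (Fin (n + 1)) (Fin (n + 1)) ℝ := eta n * Aᵀ * eta n

theorem li_zz (A : Matrix (Fin (n + 1)) (Fin (n + 1)) ℝ) : li A 0 0 = A 0 0 := by
  simp [li, eta, Matrix.mul_diagonal, Matrix.diagonal_mul]

theorem IsLor.li {A : Matrix (Fin (n + 1)) (Fin (n + 1)) ℝ} (hA : IsLor A) : IsLor (li A) := by
  refine ⟨?_, by rw [li_zz]; exact hA.2⟩
  unfold LatM.li
  rw [Matrix.transpose_mul, Matrix.transpose_mul, Matrix.transpose_transpose, eta_transpose]
  calc eta n * (A * eta n) * eta n * (eta n * Aᵀ * eta n)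
      = eta n * (A * eta n * (eta n * eta n) * Aᵀ) * eta n := by simp only [Matrix.mul_assoc]
    _ = eta n * (A * eta n * Aᵀ) * eta n := by rw [eta_sq, Matrix.mul_one]
    _ = eta n := by rw [transpose_lor hA.1, eta_sq, Matrix.one_mul]

theorem act_mul {A B : Matrix (Fin (n + 1)) (Fin (n + 1)) ℝ} (hB : IsLor B) (y : E n) :
    act (A * B) y = act A (act B y) := by
  unfold act
  rw [← Matrix.mulVec_mulVec, ← emb_act hB]
  rfl

theorem act_one (y : E n) : act (1 : Matrix (Fin (n + 1)) (Fin (n + 1)) ℝ) y = y := by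
  unfold act
  rw [Matrix.one_mulVec]
  rfl

theorem act_li {A : Matrix (Fin (n + 1)) (Fin (n + 1)) ℝ} (hA : IsLor A) (y : E n) :
    act (li A) (act A y) = y := by
  rw [← act_mul hA]
  have : LatM.li A * A = 1 := inv_mul_lor hA.1
  rw [this, act_one]

theorem q_act {A : Matrix (Fin (n + 1)) (Fin (n + 1)) ℝ} (hA : IsLor A) (x y : E n) :
    q (act A x) (act A y) = q x y := by
  rw [q_eq, q_eq, emb_act hA, emb_act hA, lor_lf hA.1]

/-- the boost which moves `y` to the base point -/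
noncomputable def boost (y : E n) : Matrix (Fin (n + 1)) (Fin (n + 1)) ℝ :=
  Matrix.of (Fin.cons (Fin.cons (y0 y) fun j => -y j)
    fun i => Fin.cons (-y i) fun j => (if i = j then 1 else 0) + y i * y j / (1 + y0 y))

theorem boost_zz (y : E n) : boost y 0 0 = y0 y := rfl
theorem boost_zs (y : E n) (j : Fin n) : boost y 0 j.succ = -y j := rfl
theorem boost_sz (y : E n) (i : Fin n) : boost y i.succ 0 = -y i := rfl
theorem boost_ss (y : E n) (i j : Fin n) :
    boost y i.succ j.succ = (if i = j then 1 else 0) + y i * y j / (1 + y0 y) := rfl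

theorem isLor_boost (y : E n) : IsLor (boost y) := by
  have h0 := y0_pos y
  have hs := y0_sq y
  have h1 : (1 + y0 y) ≠ 0 := by linarith
  have hsum : ∑ i, y i * y i = y0 y ^ 2 - 1 := by
    rw [hs, add_sub_cancel_left]
    exact Finset.sum_congr rfl fun i _ => (sq _).symm
  refine ⟨?_, by rw [boost_zz]; exact h0⟩
  have key : ∀ a b : Fin (n + 1), ((boost y)ᵀ * eta n * boost y) a b =
      lf (fun i => boost y i a) (fun i => boost y i b) := by
    intro a b
    rw [lf_eq, Matrix.mul_assoc, Matrix.mul_apply]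
    simp only [dotProduct, Matrix.mulVec, Matrix.mul_apply, Matrix.transpose_apply]
  ext a b
  rw [key]
  refine Fin.cases ?_ (fun i => ?_) a <;> refine Fin.cases ?_ (fun j => ?_) b
  · simp only [lf, boost_zz, boost_sz, neg_mul_neg, hsum, eta, Matrix.diagonal_apply_eq,
      Fin.cons_zero]
    ring
  · simp only [lf, boost_zz, boost_sz, boost_zs, boost_ss]
    have e1 : ∑ i, -y i * ((if i = j then (1 : ℝ) else 0) + y i * y j / (1 + y0 y)) =
        -y j - (y0 y ^ 2 - 1) * (y j / (1 + y0 y)) := by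
      rw [← hsum, Finset.sum_mul]
      have : ∀ i, -y i * ((if i = j then (1 : ℝ) else 0) + y i * y j / (1 + y0 y)) =
          -(y i * (if i = j then (1 : ℝ) else 0)) - y i * y i * (y j / (1 + y0 y)) := by
        intro i; ring
      simp only [this, Finset.sum_sub_distrib, Finset.sum_neg_distrib, mul_ite, mul_one, mul_zero,
        Finset.sum_ite_eq', Finset.mem_univ, if_true]
    rw [e1]
    rw [eta, Matrix.diagonal_apply_ne _ (Fin.succ_ne_zero j).symm]
    field_simp
    ring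
  · simp only [lf, boost_zz, boost_sz, boost_zs, boost_ss]
    have e1 : ∑ k, ((if k = i then (1 : ℝ) else 0) + y k * y i / (1 + y0 y)) * -y k =
        -y i - (y0 y ^ 2 - 1) * (y i / (1 + y0 y)) := by
      rw [← hsum, Finset.sum_mul]
      have : ∀ k, ((if k = i then (1 : ℝ) else 0) + y k * y i / (1 + y0 y)) * -y k =
          -(y k * (if k = i then (1 : ℝ) else 0)) - y k * y k * (y i / (1 + y0 y)) := by
        intro k; ring
      simp only [this, Finset.sum_sub_distrib, Finset.sum_neg_distrib, mul_ite, mul_one, mul_zero,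
        Finset.sum_ite_eq', Finset.mem_univ, if_true]
    rw [e1]
    rw [eta, Matrix.diagonal_apply_ne _ (Fin.succ_ne_zero i)]
    field_simp
    ring
  · simp only [lf, boost_zs, boost_ss]
    have e1 : ∑ k, ((if k = i then (1 : ℝ) else 0) + y k * y i / (1 + y0 y)) *
        ((if k = j then (1 : ℝ) else 0) + y k * y j / (1 + y0 y)) =
        (if i = j then (1 : ℝ) else 0) + 2 * (y i * y j / (1 + y0 y)) +
          (y0 y ^ 2 - 1) * (y i * y j / (1 + y0 y) ^ 2) := by
      rw [← hsum, Finset.sum_mul]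
      have : ∀ k, ((if k = i then (1 : ℝ) else 0) + y k * y i / (1 + y0 y)) *
          ((if k = j then (1 : ℝ) else 0) + y k * y j / (1 + y0 y)) =
          (if k = i then (if k = j then (1 : ℝ) else 0) else 0) +
          (if k = i then y k * y j / (1 + y0 y) else 0) +
          (if k = j then y k * y i / (1 + y0 y) else 0) +
          y k * y k * (y i * y j / (1 + y0 y) ^ 2) := by
        intro k
        have h7 : y k * y i / (1 + y0 y) * (y k * y j / (1 + y0 y)) =
            y k * y k * (y i * y j / (1 + y0 y) ^ 2) := by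
          field_simp
        split_ifs <;> rw [add_mul, mul_add, mul_add, h7] <;> ring
      simp only [this, Finset.sum_add_distrib, Finset.sum_ite_eq', Finset.mem_univ, if_true]
      ring
    rw [e1]
    rw [eta, Matrix.diagonal_apply]
    by_cases hij : i = j
    · subst hij
      simp only [if_true, Fin.cons_succ]
      field_simp
      ring
    · rw [if_neg hij, if_neg (fun h => hij (Fin.succ_injective _ h))]
      field_simp
      ring

theorem act_boost (y : E n) : (boost y *ᵥ emb y) = fun i => if i = 0 then 1 else 0 := by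
  have h0 := y0_pos y
  have hs := y0_sq y
  have h1 : (1 + y0 y) ≠ 0 := by linarith
  have hsum : ∑ i, y i * y i = y0 y ^ 2 - 1 := by
    rw [hs, add_sub_cancel_left]
    exact Finset.sum_congr rfl fun i _ => (sq _).symm
  funext i
  refine Fin.cases ?_ (fun i => ?_) i
  · rw [mulVec_zero']
    simp only [emb_zero, emb_succ, boost_zz, boost_zs, neg_mul, Finset.sum_neg_distrib, hsum,
      if_true]
    ring
  · rw [if_neg (Fin.succ_ne_zero i), Matrix.mulVec, dotProduct, Fin.sum_univ_succ]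
    simp only [emb_zero, emb_succ, boost_sz, boost_ss]
    have e1 : ∑ j, ((if i = j then (1 : ℝ) else 0) + y i * y j / (1 + y0 y)) * y j =
        y i + (y0 y ^ 2 - 1) * (y i / (1 + y0 y)) := by
      rw [← hsum, Finset.sum_mul]
      have : ∀ j, ((if i = j then (1 : ℝ) else 0) + y i * y j / (1 + y0 y)) * y j =
          (if i = j then y j else 0) + y j * y j * (y i / (1 + y0 y)) := by
        intro j
        by_cases h5 : i = j
        · simp only [h5, if_true]; ring
        · simp only [h5, if_false]; ring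
      simp only [this, Finset.sum_add_distrib, Finset.sum_ite_eq, Finset.mem_univ, if_true]
    rw [e1]
    field_simp
    ring

end Pool.Agent.Lib.MPdbccd7.LatM
end

section
/-!
# The ring `ℤ[√2]` and its two real embeddings
-/
set_option autoImplicit false

namespace Pool.Agent.Lib.MPdbccd7.LatM

open Matrix

/-- the ring `ℤ[√2]` -/
abbrev O : Type := ℤ√2

/-- the standard embedding -/
noncomputable def s1 : O →+* ℝ :=
  Zsqrtd.lift ⟨Real.sqrt 2, by norm_num⟩

/-- the conjugate embedding -/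
noncomputable def s2 : O →+* ℝ :=
  Zsqrtd.lift ⟨-Real.sqrt 2, by norm_num⟩

theorem s1_apply (z : O) : s1 z = z.re + z.im * Real.sqrt 2 := rfl

theorem s2_apply (z : O) : s2 z = z.re - z.im * Real.sqrt 2 := by
  change (z.re : ℝ) + z.im * -Real.sqrt 2 = _
  ring

theorem sqrt2_sq : Real.sqrt 2 * Real.sqrt 2 = 2 := by norm_num

theorem s1_mul_s2 (z : O) : s1 z * s2 z = (z.norm : ℝ) := by
  rw [s1_apply, s2_apply, Zsqrtd.norm_def]
  push_cast
  linear_combination (-(z.im : ℝ) * z.im) * sqrt2_sq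

theorem norm_ne_zero' {z : O} (hz : z ≠ 0) : z.norm ≠ 0 := by
  intro h
  refine hz ((Zsqrtd.norm_eq_zero ?_ z).1 h)
  intro m hm
  have h1 : m.natAbs * m.natAbs = 2 := by
    have := congrArg Int.natAbs hm
    rw [Int.natAbs_mul] at this
    simpa using this.symm
  have h2 : m.natAbs ≤ 1 ∨ 2 ≤ m.natAbs := by omega
  rcases h2 with h2 | h2
  · have : m.natAbs * m.natAbs ≤ 1 * 1 := Nat.mul_le_mul h2 h2
    omega
  · have : 2 * 2 ≤ m.natAbs * m.natAbs := Nat.mul_le_mul h2 h2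
    omega

theorem one_le_norm {z : O} (hz : z ≠ 0) : 1 ≤ |s1 z| * |s2 z| := by
  rw [← abs_mul, s1_mul_s2, ← Int.cast_abs]
  have : 1 ≤ |z.norm| := Int.one_le_abs (norm_ne_zero' hz)
  exact_mod_cast this

theorem s1_ne_zero {z : O} (hz : z ≠ 0) : s1 z ≠ 0 := by
  intro h
  have := one_le_norm hz
  rw [h, abs_zero, zero_mul] at this
  linarith

theorem s2_ne_zero {z : O} (hz : z ≠ 0) : s2 z ≠ 0 := by
  intro h
  have := one_le_norm hz
  rw [h, abs_zero, mul_zero] at this
  linarith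

theorem s1_inj : Function.Injective s1 := by
  rw [injective_iff_map_eq_zero]
  intro z h
  by_contra hz
  exact s1_ne_zero hz h

theorem finite_O (C : ℝ) : {z : O | |s1 z| ≤ C ∧ |s2 z| ≤ C}.Finite := by
  have h : {z : O | |s1 z| ≤ C ∧ |s2 z| ≤ C} ⊆
      (fun p : ℤ × ℤ => (⟨p.1, p.2⟩ : O)) '' (Set.Icc (-⌈C⌉) ⌈C⌉ ×ˢ Set.Icc (-⌈C⌉) ⌈C⌉) := by
    rintro z ⟨h1, h2⟩
    rw [abs_le, s1_apply] at h1
    rw [abs_le, s2_apply] at h2
    have hC : C ≤ ⌈C⌉ := Int.le_ceil C
    have hs : 1 ≤ Real.sqrt 2 := by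
      rw [Real.one_le_sqrt]; norm_num
    have h3 : |(z.im : ℝ) * Real.sqrt 2| ≤ ⌈C⌉ := by
      rw [abs_le]; constructor <;> linarith [h1.1, h1.2, h2.1, h2.2]
    rw [abs_mul, abs_of_pos (show 0 < Real.sqrt 2 by linarith)] at h3
    have h4 : |(z.im : ℝ)| ≤ ⌈C⌉ := by
      nlinarith [abs_nonneg (z.im : ℝ)]
    rw [abs_le] at h4
    refine ⟨(z.re, z.im), ⟨⟨?_, ?_⟩, ?_, ?_⟩, rfl⟩
    · have : ((-⌈C⌉ : ℤ) : ℝ) ≤ z.re := by push_cast; linarith [h1.1, h2.1]
      exact_mod_cast this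
    · have : (z.re : ℝ) ≤ (⌈C⌉ : ℤ) := by linarith [h1.2, h2.2]
      exact_mod_cast this
    · have : ((-⌈C⌉ : ℤ) : ℝ) ≤ z.im := by push_cast; linarith [h4.1]
      exact_mod_cast this
    · exact_mod_cast h4.2
  exact ((Set.finite_Icc _ _).prod (Set.finite_Icc _ _)).image _ |>.subset h

/-! ### The quadratic form over `ℤ[√2]` -/

variable {n : ℕ}

/-- `√2` -/
def rt : O := ⟨0, 1⟩

theorem s1_rt : s1 rt = Real.sqrt 2 := by rw [s1_apply]; simp [rt]
theorem s2_rt : s2 rt = -Real.sqrt 2 := by rw [s2_apply]; simp [rt]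
theorem rt_sq : rt * rt = 2 := by decide

/-- the form `-√2 x₀² + ∑ x_i²` -/
def fo (x y : Fin (n + 1) → O) : O := -(rt * (x 0 * y 0)) + ∑ i : Fin n, x i.succ * y i.succ

/-- its matrix -/
def FO (n : ℕ) : Matrix (Fin (n + 1)) (Fin (n + 1)) O :=
  Matrix.diagonal (Fin.cons (-rt) fun _ => 1)

theorem fo_eq (x y : Fin (n + 1) → O) : fo x y = x ⬝ᵥ (FO n *ᵥ y) := by
  simp only [fo, dotProduct, FO, Matrix.mulVec_diagonal, Fin.sum_univ_succ, Fin.cons_zero,
    Fin.cons_succ, one_mul]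
  ring

/-- `2^(1/4)` -/
noncomputable def r4 : ℝ := Real.sqrt (Real.sqrt 2)

theorem r4_pos : 0 < r4 := Real.sqrt_pos.2 (Real.sqrt_pos.2 two_pos)

theorem r4_sq : r4 * r4 = Real.sqrt 2 := Real.mul_self_sqrt (Real.sqrt_nonneg 2)

/-- the change of coordinates -/
noncomputable def sc (x : Fin (n + 1) → ℝ) : Fin (n + 1) → ℝ :=
  Fin.cons (r4 * x 0) fun i => x i.succ

theorem sc_zero (x : Fin (n + 1) → ℝ) : sc x 0 = r4 * x 0 := rfl
theorem sc_succ (x : Fin (n + 1) → ℝ) (i : Fin n) : sc x i.succ = x i.succ := rfl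

/-- real vector of `x` in the first place -/
noncomputable def v1 (x : Fin (n + 1) → O) : Fin (n + 1) → ℝ := sc fun i => s1 (x i)

/-- real vector of `x` in the second place -/
noncomputable def v2 (x : Fin (n + 1) → O) : Fin (n + 1) → ℝ := sc fun i => s2 (x i)

theorem lf_v1 (x y : Fin (n + 1) → O) : lf (v1 x) (v1 y) = s1 (fo x y) := by
  simp only [lf, v1, sc_zero, sc_succ, fo, map_add, map_neg, map_mul, map_sum, s1_rt]
  linear_combination (-(s1 (x 0)) * s1 (y 0)) * r4_sq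

theorem dot_v2 (x y : Fin (n + 1) → O) : v2 x ⬝ᵥ v2 y = s2 (fo x y) := by
  simp only [dotProduct, v2, Fin.sum_univ_succ, sc_zero, sc_succ, fo, map_add, map_neg, map_mul,
    map_sum, s2_rt]
  linear_combination (s2 (x 0) * s2 (y 0)) * r4_sq

theorem fo_self_ne_zero {x : Fin (n + 1) → O} (hx : x ≠ 0) : fo x x ≠ 0 := by
  intro h
  have h1 := dot_v2 x x
  rw [h, map_zero] at h1
  have h2 : v2 x = 0 := by
    exact dotProduct_self_eq_zero.1 h1
  apply hx
  funext i
  refine Fin.cases ?_ (fun i => ?_) i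
  · have := congrFun h2 0
    rw [v2, sc_zero, Pi.zero_apply] at this
    by_contra h0
    exact s2_ne_zero h0 ((mul_eq_zero.1 this).resolve_left r4_pos.ne')
  · have := congrFun h2 i.succ
    rw [v2, sc_succ, Pi.zero_apply] at this
    by_contra h0
    exact s2_ne_zero h0 this

/-- Euclidean length bound: the minimum of the lattice -/
theorem two_le {g : Matrix (Fin (n + 1)) (Fin (n + 1)) ℝ} (hg : IsLor g) {x : Fin (n + 1) → O}
    (hx : x ≠ 0) : 2 ≤ (g *ᵥ v1 x) ⬝ᵥ (g *ᵥ v1 x) + v2 x ⬝ᵥ v2 x := by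
  have h1 : lf (g *ᵥ v1 x) (g *ᵥ v1 x) = s1 (fo x x) := by rw [lor_lf hg.1, lf_v1]
  have h2 : |lf (g *ᵥ v1 x) (g *ᵥ v1 x)| ≤ (g *ᵥ v1 x) ⬝ᵥ (g *ᵥ v1 x) := by
    set w := g *ᵥ v1 x
    have h3 : 0 ≤ ∑ i : Fin n, w i.succ * w i.succ := Finset.sum_nonneg fun i _ => mul_self_nonneg _
    have h4 : 0 ≤ w 0 * w 0 := mul_self_nonneg _
    rw [abs_le, lf, dotProduct, Fin.sum_univ_succ]
    constructor <;> linarith
  rw [h1] at h2
  have h3 := one_le_norm (fo_self_ne_zero hx)
  have h4 := dot_v2 x x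
  have h5 : 0 ≤ v2 x ⬝ᵥ v2 x := by
    rw [dotProduct]; exact Finset.sum_nonneg fun i _ => mul_self_nonneg _
  rw [h4] at h5 ⊢
  rw [abs_of_nonneg h5] at h3
  set a := |s1 (fo x x)|
  set b := s2 (fo x x)
  have ha : 0 ≤ a := abs_nonneg _
  nlinarith [sq_nonneg (a - b), sq_nonneg (a + b)]

end Pool.Agent.Lib.MPdbccd7.LatM
end

section
/-!
# Short bases of `ℤ[√2]^(n+1)` with respect to a point of hyperbolic space
-/
set_option autoImplicit false

namespace Pool.Agent.Lib.MPdbccd7.LatM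

open Matrix

variable {n : ℕ}

/-- index set of the ambient Euclidean space -/
abbrev K (n : ℕ) : Type := Fin (n + 1) ⊕ Fin (n + 1)

/-- the Euclidean vector of `x` -/
noncomputable def vec (g : Matrix (Fin (n + 1)) (Fin (n + 1)) ℝ) (x : Fin (n + 1) → O) :
    EuclideanSpace ℝ (K n) := WithLp.toLp 2 (Sum.elim (g *ᵥ v1 x) (v2 x))

theorem v1_add (x y : Fin (n + 1) → O) : v1 (x + y) = v1 x + v1 y := by
  funext i
  refine Fin.cases ?_ (fun i => ?_) i
  · simp only [v1, sc_zero, Pi.add_apply, map_add, mul_add]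
  · simp only [v1, sc_succ, Pi.add_apply, map_add]

theorem v2_add (x y : Fin (n + 1) → O) : v2 (x + y) = v2 x + v2 y := by
  funext i
  refine Fin.cases ?_ (fun i => ?_) i
  · simp only [v2, sc_zero, Pi.add_apply, map_add, mul_add]
  · simp only [v2, sc_succ, Pi.add_apply, map_add]

theorem v1_rt (x : Fin (n + 1) → O) : v1 (rt • x) = Real.sqrt 2 • v1 x := by
  funext i
  refine Fin.cases ?_ (fun i => ?_) i
  · simp only [v1, sc_zero, Pi.smul_apply, smul_eq_mul, map_mul, s1_rt]; ring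
  · simp only [v1, sc_succ, Pi.smul_apply, smul_eq_mul, map_mul, s1_rt]

theorem v2_rt (x : Fin (n + 1) → O) : v2 (rt • x) = -(Real.sqrt 2 • v2 x) := by
  funext i
  refine Fin.cases ?_ (fun i => ?_) i
  · simp only [v2, sc_zero, Pi.neg_apply, Pi.smul_apply, smul_eq_mul, map_mul, s2_rt]; ring
  · simp only [v2, sc_succ, Pi.neg_apply, Pi.smul_apply, smul_eq_mul, map_mul, s2_rt]; ring

/-- `vec g` as an additive map -/
noncomputable def vecH (g : Matrix (Fin (n + 1)) (Fin (n + 1)) ℝ) :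
    (Fin (n + 1) → O) →+ EuclideanSpace ℝ (K n) where
  toFun := vec g
  map_zero' := by
    have h1 : v1 (0 : Fin (n + 1) → O) = 0 := by
      have := v1_add (0 : Fin (n + 1) → O) 0
      rw [add_zero] at this
      exact left_eq_add.1 this
    have h2 : v2 (0 : Fin (n + 1) → O) = 0 := by
      have := v2_add (0 : Fin (n + 1) → O) 0
      rw [add_zero] at this
      exact left_eq_add.1 this
    unfold vec
    rw [h1, h2, Matrix.mulVec_zero]
    ext k
    rcases k with k | k <;> simp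
  map_add' x y := by
    unfold vec
    rw [v1_add, v2_add, Matrix.mulVec_add]
    ext k
    rcases k with k | k <;> simp

theorem vecH_apply (g : Matrix (Fin (n + 1)) (Fin (n + 1)) ℝ) (x : Fin (n + 1) → O) :
    vecH g x = vec g x := rfl

theorem norm_vec_sq (g : Matrix (Fin (n + 1)) (Fin (n + 1)) ℝ) (x : Fin (n + 1) → O) :
    ‖vec g x‖ ^ 2 = (g *ᵥ v1 x) ⬝ᵥ (g *ᵥ v1 x) + v2 x ⬝ᵥ v2 x := by
  rw [EuclideanSpace.norm_sq_eq, Fintype.sum_sum_type]
  simp only [vec, Sum.elim_inl, Sum.elim_inr, Real.norm_eq_abs, sq_abs, dotProduct]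
  congr 1 <;> exact Finset.sum_congr rfl fun i _ => sq _

theorem norm_vec_ge {g : Matrix (Fin (n + 1)) (Fin (n + 1)) ℝ} (hg : IsLor g)
    {x : Fin (n + 1) → O} (hx : x ≠ 0) : 1 ≤ ‖vec g x‖ := by
  have h := two_le hg hx
  rw [← norm_vec_sq] at h
  nlinarith [norm_nonneg (vec g x)]

theorem norm_vec_rt (g : Matrix (Fin (n + 1)) (Fin (n + 1)) ℝ) (x : Fin (n + 1) → O) :
    ‖vec g (rt • x)‖ ^ 2 = 2 * ‖vec g x‖ ^ 2 := by
  rw [norm_vec_sq, norm_vec_sq, v1_rt, v2_rt, Matrix.mulVec_smul]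
  simp only [dotProduct_neg, neg_dotProduct, dotProduct_smul, smul_dotProduct, smul_eq_mul]
  linear_combination ((g *ᵥ v1 x) ⬝ᵥ (g *ᵥ v1 x) + v2 x ⬝ᵥ v2 x) * sqrt2_sq

/-- the standard `ℤ`-basis of `ℤ[√2]^(n+1)` -/
def ep (k : K n) : Fin (n + 1) → O := Sum.elim (fun i => Pi.single i 1) (fun i => Pi.single i rt) k

theorem ep_span (x : Fin (n + 1) → O) :
    x = ∑ k : K n, (Sum.elim (fun i => (x i).re) (fun i => (x i).im) k) • ep k := by
  rw [Fintype.sum_sum_type]
  funext j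
  simp only [Sum.elim_inl, Sum.elim_inr, ep, Pi.add_apply, Finset.sum_apply, Pi.smul_apply]
  rw [Finset.sum_eq_single_of_mem j (Finset.mem_univ j), Finset.sum_eq_single_of_mem j
    (Finset.mem_univ j), Pi.single_eq_same, Pi.single_eq_same]
  · ext <;> simp [rt]
  · intro i _ hij
    rw [Pi.single_eq_of_ne hij.symm, smul_zero]
  · intro i _ hij
    rw [Pi.single_eq_of_ne hij.symm, smul_zero]

/-- matrix of the standard basis -/
noncomputable def RM (g : Matrix (Fin (n + 1)) (Fin (n + 1)) ℝ) : Matrix (K n) (K n) ℝ :=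
  Matrix.of fun k l => vec g (ep k) l

theorem RM_eq (g : Matrix (Fin (n + 1)) (Fin (n + 1)) ℝ) :
    RM g = RM 1 * Matrix.fromBlocks gᵀ 0 0 1 := by
  ext k l
  rw [Matrix.mul_apply, Fintype.sum_sum_type]
  rcases l with l | l
  · simp only [Matrix.fromBlocks_apply₁₁, Matrix.fromBlocks_apply₂₁, Matrix.zero_apply, mul_zero,
      Finset.sum_const_zero, add_zero, Matrix.transpose_apply]
    change (g *ᵥ v1 (ep k)) l = ∑ i, ((1 : Matrix _ _ ℝ) *ᵥ v1 (ep k)) i * g l i
    rw [Matrix.one_mulVec, Matrix.mulVec, dotProduct]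
    exact Finset.sum_congr rfl fun i _ => mul_comm _ _
  · simp only [Matrix.fromBlocks_apply₁₂, Matrix.fromBlocks_apply₂₂, Matrix.zero_apply, mul_zero,
      Finset.sum_const_zero, zero_add, Matrix.one_apply, mul_ite, mul_one]
    rw [Finset.sum_ite_eq' Finset.univ l, if_pos (Finset.mem_univ l)]
    rfl

theorem det_lor {g : Matrix (Fin (n + 1)) (Fin (n + 1)) ℝ} (hg : IsLor g) : |g.det| = 1 := by
  have h := congrArg Matrix.det hg.1
  rw [Matrix.det_mul, Matrix.det_mul, Matrix.det_transpose] at h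
  have h2 : (eta n).det = -1 := by
    rw [eta, Matrix.det_diagonal, Fin.prod_univ_succ]
    simp
  rw [h2] at h
  have h3 : g.det * g.det = 1 := by linarith
  have h4 : |g.det| * |g.det| = 1 := by rw [← abs_mul, h3, abs_one]
  nlinarith [abs_nonneg g.det]

theorem det_RM {g : Matrix (Fin (n + 1)) (Fin (n + 1)) ℝ} (hg : IsLor g) :
    |(RM g).det| = |(RM (1 : Matrix (Fin (n + 1)) (Fin (n + 1)) ℝ)).det| := by
  rw [RM_eq g, Matrix.det_mul, Matrix.det_fromBlocks_zero₂₁, Matrix.det_transpose, Matrix.det_one,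
    mul_one, abs_mul, det_lor hg, mul_one]

/-- the scaling factors -/
noncomputable def tt : Fin (n + 1) → ℝ := Fin.cons r4 fun _ => 1

theorem tt_ne_zero (j : Fin (n + 1)) : (tt j : ℝ) ≠ 0 := by
  refine Fin.cases ?_ (fun i => ?_) j
  · exact r4_pos.ne'
  · exact one_ne_zero

theorem sc_apply (x : Fin (n + 1) → ℝ) (j : Fin (n + 1)) : sc x j = tt j * x j := by
  refine Fin.cases ?_ (fun i => ?_) j
  · rfl
  · rw [sc_succ]
    exact (one_mul _).symm

theorem vecMul_RM (c : K n → ℝ) (j : Fin (n + 1)) :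
    (c ᵥ* RM (1 : Matrix (Fin (n + 1)) (Fin (n + 1)) ℝ)) (Sum.inl j) =
      tt j * (c (Sum.inl j) + c (Sum.inr j) * Real.sqrt 2) ∧
    (c ᵥ* RM (1 : Matrix (Fin (n + 1)) (Fin (n + 1)) ℝ)) (Sum.inr j) =
      tt j * (c (Sum.inl j) - c (Sum.inr j) * Real.sqrt 2) := by
  have h1 : ∀ i j : Fin (n + 1), ((Pi.single i (1 : O) : Fin (n + 1) → O) j) =
      if j = i then 1 else 0 := fun i j => Pi.single_apply i 1 j
  have h2 : ∀ i j : Fin (n + 1), ((Pi.single i rt : Fin (n + 1) → O) j) =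
      if j = i then rt else 0 := fun i j => Pi.single_apply i rt j
  constructor
  · rw [Matrix.vecMul, dotProduct, Fintype.sum_sum_type]
    simp only [RM, Matrix.of_apply, vec, Sum.elim_inl, Matrix.one_mulVec, ep, Sum.elim_inr, v1,
      sc_apply, h1, h2, apply_ite s1, map_one, map_zero, s1_rt, mul_ite, mul_one, mul_zero,
      Finset.sum_ite_eq, Finset.mem_univ, if_true]
    ring
  · rw [Matrix.vecMul, dotProduct, Fintype.sum_sum_type]
    simp only [RM, Matrix.of_apply, vec, Sum.elim_inl, Matrix.one_mulVec, ep, Sum.elim_inr, v2,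
      sc_apply, h1, h2, apply_ite s2, map_one, map_zero, s2_rt, mul_ite, mul_one, mul_zero,
      Finset.sum_ite_eq, Finset.mem_univ, if_true]
    ring

/-- rows are independent -/
theorem det_RM_one_ne : (RM (1 : Matrix (Fin (n + 1)) (Fin (n + 1)) ℝ)).det ≠ 0 := by
  have hinj : Function.Injective (RM (1 : Matrix (Fin (n + 1)) (Fin (n + 1)) ℝ)).vecMul := by
    intro c d hcd
    have h2 : Real.sqrt 2 ≠ 0 := by positivity
    have key : ∀ j, c (Sum.inl j) = d (Sum.inl j) ∧ c (Sum.inr j) = d (Sum.inr j) := by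
      intro j
      have e1 := congrFun hcd (Sum.inl j)
      have e2 := congrFun hcd (Sum.inr j)
      change (c ᵥ* RM 1) _ = (d ᵥ* RM 1) _ at e1 e2
      rw [(vecMul_RM c j).1, (vecMul_RM d j).1] at e1
      rw [(vecMul_RM c j).2, (vecMul_RM d j).2] at e2
      have e3 := mul_left_cancel₀ (tt_ne_zero j) e1
      have e4 := mul_left_cancel₀ (tt_ne_zero j) e2
      constructor
      · linarith
      · have : (c (Sum.inr j) - d (Sum.inr j)) * Real.sqrt 2 = 0 := by linarith
        have := (mul_eq_zero.1 this).resolve_right h2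
        linarith
    funext k
    rcases k with j | j
    · exact (key j).1
    · exact (key j).2
  have h := (Matrix.vecMul_injective_iff_isUnit).1 hinj
  rw [Matrix.isUnit_iff_isUnit_det] at h
  exact h.ne_zero

theorem det_RM_ne {g : Matrix (Fin (n + 1)) (Fin (n + 1)) ℝ} (hg : IsLor g) : (RM g).det ≠ 0 := by
  intro h
  have := det_RM hg
  rw [h, abs_zero] at this
  exact det_RM_one_ne (abs_eq_zero.1 this.symm)

theorem linInd {g : Matrix (Fin (n + 1)) (Fin (n + 1)) ℝ} (hg : IsLor g) :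
    LinearIndependent ℝ fun k : K n => vec g (ep k) := by
  have h := Matrix.linearIndependent_rows_of_isUnit
    ((Matrix.isUnit_iff_isUnit_det _).2 (isUnit_iff_ne_zero.2 (det_RM_ne hg)))
  have h2 := h.map' (WithLp.linearEquiv 2 ℝ (K n → ℝ)).symm.toLinearMap (LinearEquiv.ker _)
  exact h2

theorem vec_inj {g : Matrix (Fin (n + 1)) (Fin (n + 1)) ℝ} (hg : IsLor g) {x y : Fin (n + 1) → O}
    (h : vec g x = vec g y) : x = y := by
  by_contra hne
  have h1 := norm_vec_ge hg (sub_ne_zero.2 hne)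
  have h2 : vec g (x - y) = 0 := by
    rw [← vecH_apply, map_sub, vecH_apply, vecH_apply, h, sub_self]
  rw [h2, norm_zero] at h1
  linarith

theorem wn_one {ι : Type} [Fintype ι] (x : EuclideanSpace ℝ ι) :
    MPcb27.wn (fun _ => 1) (fun i => x i) = ‖x‖ := by
  unfold MPcb27.wn
  rw [EuclideanSpace.norm_eq]
  congr 1
  exact Finset.sum_congr rfl fun i _ => by rw [div_one, Real.norm_eq_abs, sq_abs]

/-- good bases -/
theorem good (n : ℕ) : ∃ R : ℝ, 1 ≤ R ∧ ∀ g : Matrix (Fin (n + 1)) (Fin (n + 1)) ℝ, IsLor g →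
    ∃ β : Fin (Fintype.card (K n)) → Fin (n + 1) → O,
      (∀ x, ∃ c : Fin (Fintype.card (K n)) → ℤ, x = ∑ j, c j • β j) ∧
      (∀ c : Fin (Fintype.card (K n)) → ℤ, ∑ j, c j • β j = 0 → c = 0) ∧
      (∀ j, ‖vec g (β j)‖ ≤ R) ∧
      ∀ (c : Fin (Fintype.card (K n)) → ℤ) (j), |(c j : ℝ)| ≤ R * ‖vec g (∑ j, c j • β j)‖ := by
  obtain ⟨κ, hκ, hgb⟩ := MPcb27.specGB (Fintype.card (K n))
  let Δ : ℝ := |(RM (1 : Matrix (Fin (n + 1)) (Fin (n + 1)) ℝ)).det|
  have hΔ : 0 ≤ Δ := abs_nonneg _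
  refine ⟨max κ (κ ^ (Fintype.card (K n)) * Δ), hκ.trans (le_max_left _ _), ?_⟩
  intro g hg
  let e : K n ≃ Fin (Fintype.card (K n)) := Fintype.equivFin (K n)
  obtain ⟨b, hb, hspan, hgood⟩ := hgb (EuclideanSpace ℝ (K n)) (fun j => vec g (ep (e.symm j)))
    ((linInd hg).comp _ e.symm.injective)
  -- lifts
  have hle : Submodule.span ℤ (Set.range fun j => vec g (ep (e.symm j))) ≤
      AddSubgroup.toIntSubmodule (vecH g).range := by
    rw [Submodule.span_le]
    rintro _ ⟨j, rfl⟩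
    exact ⟨_, rfl⟩
  have hmem : ∀ j, ∃ x, vec g x = b j := by
    intro j
    have h1 : b j ∈ Submodule.span ℤ (Set.range b) := Submodule.subset_span ⟨j, rfl⟩
    rw [hspan] at h1
    obtain ⟨x, hx⟩ := hle h1
    exact ⟨x, hx⟩
  choose β hβ using hmem
  have hvsum : ∀ c : Fin (Fintype.card (K n)) → ℤ,
      vec g (∑ j, c j • β j) = ∑ j, (c j : ℝ) • b j := by
    intro c
    rw [← vecH_apply, map_sum]
    refine Finset.sum_congr rfl fun j _ => ?_
    rw [map_zsmul, vecH_apply, hβ, Int.cast_smul_eq_zsmul]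
  have hspan2 : ∀ x, ∃ c : Fin (Fintype.card (K n)) → ℤ, x = ∑ j, c j • β j := by
    intro x
    have h1 : vec g x ∈ Submodule.span ℤ (Set.range b) := by
      rw [hspan]
      have h2 : vec g x = ∑ k : K n, (Sum.elim (fun i => (x i).re) (fun i => (x i).im) k) •
          vec g (ep k) := by
        conv_lhs => rw [ep_span x]
        rw [← vecH_apply, map_sum]
        exact Finset.sum_congr rfl fun k _ => by rw [map_zsmul, vecH_apply]
      rw [h2]
      refine Submodule.sum_mem _ fun k _ => Submodule.smul_mem _ _ (Submodule.subset_span ?_)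
      exact ⟨e k, by simp⟩
    obtain ⟨c, hc⟩ := (Submodule.mem_span_range_iff_exists_fun ℤ).1 h1
    refine ⟨c, vec_inj hg ?_⟩
    rw [hvsum, ← hc]
    exact Finset.sum_congr rfl fun j _ => (Int.cast_smul_eq_zsmul ℝ (c j) (b j)).symm
  have hge : ∀ j, 1 ≤ ‖b j‖ := by
    intro j
    rw [← hβ]
    apply norm_vec_ge hg
    intro h0
    have := hβ j
    rw [h0, ← vecH_apply, map_zero] at this
    exact hb.ne_zero j this.symm
  -- the determinant
  let V : Matrix (K n) (K n) ℝ := Matrix.of fun k l => b (e k) l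
  let C : Matrix (K n) (K n) ℤ := Matrix.of fun k l =>
    Sum.elim (fun i => (β (e k) i).re) (fun i => (β (e k) i).im) l
  choose c' hc' using fun k : K n => hspan2 (ep k)
  let C' : Matrix (K n) (K n) ℤ := Matrix.of fun k l => c' k (e l)
  have hV : V = C.map (Int.cast : ℤ → ℝ) * RM g := by
    ext k l
    change b (e k) l = _
    rw [← hβ, Matrix.mul_apply]
    have h2 : vec g (β (e k)) = ∑ m : K n, ((C k m : ℤ) : ℝ) • vec g (ep m) := by
      conv_lhs => rw [ep_span (β (e k))]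
      rw [← vecH_apply, map_sum]
      exact Finset.sum_congr rfl fun m _ => by
        rw [map_zsmul, vecH_apply, Int.cast_smul_eq_zsmul]; rfl
    rw [h2]
    simp only [WithLp.ofLp_sum, Finset.sum_apply, WithLp.ofLp_smul, Pi.smul_apply, smul_eq_mul,
      Matrix.map_apply, RM, Matrix.of_apply]
  have hR : RM g = C'.map (Int.cast : ℤ → ℝ) * V := by
    ext k l
    change vec g (ep k) l = _
    rw [Matrix.mul_apply, hc' k, hvsum]
    simp only [WithLp.ofLp_sum, Finset.sum_apply, WithLp.ofLp_smul, Pi.smul_apply, smul_eq_mul,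
      Matrix.map_apply, V, C', Matrix.of_apply]
    exact (Equiv.sum_comp e fun j => (c' k j : ℝ) * b j l).symm
  have hdetC : |((C.map (Int.cast : ℤ → ℝ)).det)| ≤ 1 := by
    have h1 : (C'.map (Int.cast : ℤ → ℝ)).det * (C.map (Int.cast : ℤ → ℝ)).det = 1 := by
      have h2 := congrArg Matrix.det hR
      rw [hV, Matrix.det_mul, Matrix.det_mul, ← mul_assoc] at h2
      exact mul_right_cancel₀ (det_RM_ne hg) (by rw [one_mul]; exact h2.symm)
    have h3 : ((C'.det : ℤ) : ℝ) * ((C.det : ℤ) : ℝ) = 1 := by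
      rw [← h1]
      congr 1
      · exact (Int.cast_det C')
      · exact (Int.cast_det C)
    have h4 : C'.det * C.det = 1 := by exact_mod_cast h3
    have h5 : IsUnit C.det := IsUnit.of_mul_eq_one _ (by rw [mul_comm]; exact h4)
    have h6 : (C.map (Int.cast : ℤ → ℝ)).det = ((C.det : ℤ) : ℝ) := (Int.cast_det C).symm
    rw [h6]
    rcases Int.isUnit_iff.1 h5 with h | h <;> simp [h]
  have hdetV : |V.det| ≤ Δ := by
    rw [hV, Matrix.det_mul, abs_mul, det_RM hg]
    calc _ ≤ 1 * Δ := mul_le_mul_of_nonneg_right hdetC hΔ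
      _ = Δ := one_mul _
  have hprod : ∏ k : K n, ‖b (e k)‖ ≤ κ ^ (Fintype.card (K n)) * Δ := by
    have h1 := (MPcb27.specDet κ hκ (K n) V).2 (by
      intro x
      have h2 := hgood fun j => x (e.symm j)
      have h3 : ∀ k, MPcb27.wn (fun _ => 1) (V k) = ‖b (e k)‖ := fun k => wn_one (b (e k))
      have h4 : MPcb27.wn (fun _ => 1) (fun i => ∑ j, x j * V j i) =
          ‖∑ j, x (e.symm j) • b j‖ := by
        rw [← wn_one]
        congr 1
        funext i
        simp only [WithLp.ofLp_sum, Finset.sum_apply, WithLp.ofLp_smul, Pi.smul_apply, smul_eq_mul]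
        rw [← Equiv.sum_comp e]
        exact Finset.sum_congr rfl fun k _ => by rw [Equiv.symm_apply_apply]; rfl
      rw [h4]
      refine le_trans (le_of_eq ?_) h2
      rw [← Equiv.sum_comp e]
      exact Finset.sum_congr rfl fun k _ => by rw [Equiv.symm_apply_apply, h3])
    have h3 : ∀ k, MPcb27.wn (fun _ => 1) (V k) = ‖b (e k)‖ := fun k => wn_one (b (e k))
    simp only [h3] at h1
    exact h1.trans (mul_le_mul_of_nonneg_left hdetV (by positivity))
  have hbR : ∀ j, ‖b j‖ ≤ κ ^ (Fintype.card (K n)) * Δ := by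
    intro j
    refine le_trans ?_ hprod
    have h1 : ‖b j‖ = ‖b (e (e.symm j))‖ := by rw [Equiv.apply_symm_apply]
    rw [h1]
    have h2 := Finset.mul_prod_erase Finset.univ (fun k => ‖b (e k)‖) (Finset.mem_univ (e.symm j))
    have h3 : 1 ≤ ∏ k ∈ Finset.univ.erase (e.symm j), ‖b (e k)‖ := by
      calc (1 : ℝ) = ∏ _k ∈ Finset.univ.erase (e.symm j), (1 : ℝ) := by simp
        _ ≤ _ := Finset.prod_le_prod (fun _ _ => zero_le_one) fun k _ => hge _
    rw [← h2]
    exact le_mul_of_one_le_right (norm_nonneg _) h3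
  refine ⟨β, hspan2, ?_, ?_, ?_⟩
  · intro c hc
    have h1 := hvsum c
    rw [hc, ← vecH_apply, map_zero] at h1
    have h2 := Fintype.linearIndependent_iff.1 hb _ h1.symm
    funext j
    exact_mod_cast h2 j
  · intro j
    rw [hβ]
    exact (hbR j).trans (le_max_right _ _)
  · intro c j
    rw [hvsum]
    have h1 := hgood fun j => (c j : ℝ)
    have h2 : |(c j : ℝ)| * ‖b j‖ ≤ ∑ i, |(c i : ℝ)| * ‖b i‖ :=
      Finset.single_le_sum (f := fun i => |(c i : ℝ)| * ‖b i‖)
        (fun i _ => by positivity) (Finset.mem_univ j)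
    have h3 : |(c j : ℝ)| ≤ |(c j : ℝ)| * ‖b j‖ := le_mul_of_one_le_right (abs_nonneg _) (hge j)
    calc |(c j : ℝ)| ≤ κ * ‖∑ i, (c i : ℝ) • b i‖ := h3.trans (h2.trans h1)
      _ ≤ _ := mul_le_mul_of_nonneg_right (le_max_left _ _) (norm_nonneg _)

end Pool.Agent.Lib.MPdbccd7.LatM
end

section
/-!
# Cocompactness of the orthogonal group of `-√2 x₀² + ∑ x_i²` over `ℤ[√2]`
-/
set_option autoImplicit false

namespace Pool.Agent.Lib.MPdbccd7.LatM

open Matrix

variable {n : ℕ}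

/-- diagonal matrix of the scaling factors -/
noncomputable def SM (n : ℕ) : Matrix (Fin (n + 1)) (Fin (n + 1)) ℝ := Matrix.diagonal tt

/-- its inverse -/
noncomputable def SI (n : ℕ) : Matrix (Fin (n + 1)) (Fin (n + 1)) ℝ :=
  Matrix.diagonal fun j => (tt j)⁻¹

theorem SM_SI : SM n * SI n = 1 := by
  rw [SM, SI, Matrix.diagonal_mul_diagonal, ← Matrix.diagonal_one]
  congr 1
  funext j
  exact mul_inv_cancel₀ (tt_ne_zero j)

theorem SI_SM : SI n * SM n = 1 := by
  rw [SM, SI, Matrix.diagonal_mul_diagonal, ← Matrix.diagonal_one]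
  congr 1
  funext j
  exact inv_mul_cancel₀ (tt_ne_zero j)

/-- the real matrix of an integral matrix -/
noncomputable def cj (A : Matrix (Fin (n + 1)) (Fin (n + 1)) O) :
    Matrix (Fin (n + 1)) (Fin (n + 1)) ℝ := SM n * A.map s1 * SI n

theorem cj_apply (A : Matrix (Fin (n + 1)) (Fin (n + 1)) O) (i j : Fin (n + 1)) :
    cj A i j = tt i * s1 (A i j) * (tt j)⁻¹ := by
  rw [cj, SM, SI, Matrix.mul_diagonal, Matrix.diagonal_mul, Matrix.map_apply]

theorem cj_zz (A : Matrix (Fin (n + 1)) (Fin (n + 1)) O) : cj A 0 0 = s1 (A 0 0) := by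
  rw [cj_apply]
  have := tt_ne_zero (0 : Fin (n + 1))
  field_simp

theorem cj_mul (A B : Matrix (Fin (n + 1)) (Fin (n + 1)) O) : cj (A * B) = cj A * cj B := by
  unfold cj
  rw [Matrix.map_mul]
  calc SM n * (A.map s1 * B.map s1) * SI n
      = SM n * A.map s1 * 1 * B.map s1 * SI n := by simp only [Matrix.mul_assoc, Matrix.one_mul]
    _ = _ := by rw [← SI_SM]; simp only [Matrix.mul_assoc]

theorem cj_one : cj (1 : Matrix (Fin (n + 1)) (Fin (n + 1)) O) = 1 := by
  unfold cj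
  rw [Matrix.map_one _ (map_zero s1) (map_one s1), Matrix.mul_one, SM_SI]

theorem cj_neg (A : Matrix (Fin (n + 1)) (Fin (n + 1)) O) : cj (-A) = -cj A := by
  ext i j
  rw [Matrix.neg_apply, cj_apply, cj_apply, Matrix.neg_apply, map_neg]
  ring

theorem cj_mulVec (A : Matrix (Fin (n + 1)) (Fin (n + 1)) O) (x : Fin (n + 1) → O) :
    cj A *ᵥ v1 x = v1 (A *ᵥ x) := by
  funext i
  simp only [Matrix.mulVec, dotProduct, v1, sc_apply, map_sum, map_mul, Finset.mul_sum, cj_apply]
  refine Finset.sum_congr rfl fun j _ => ?_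
  have := tt_ne_zero j
  field_simp

theorem eta_SM : SM n * eta n * SM n = (FO n).map s1 := by
  ext i j
  rw [SM, Matrix.mul_diagonal, Matrix.diagonal_mul, Matrix.map_apply, eta, FO]
  by_cases hij : i = j
  · subst hij
    rw [Matrix.diagonal_apply_eq, Matrix.diagonal_apply_eq]
    refine Fin.cases ?_ (fun i => ?_) i
    · change r4 * -1 * r4 = s1 (-rt)
      rw [map_neg, s1_rt, ← r4_sq]; ring
    · change 1 * 1 * 1 = s1 1
      rw [map_one]; norm_num
  · rw [Matrix.diagonal_apply_ne _ hij, Matrix.diagonal_apply_ne _ hij, map_zero]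
    ring

theorem cj_lor {A : Matrix (Fin (n + 1)) (Fin (n + 1)) O} (hA : Aᵀ * FO n * A = FO n) :
    (cj A)ᵀ * eta n * cj A = eta n := by
  have h1 : (A.map s1)ᵀ * (FO n).map s1 * A.map s1 = (FO n).map s1 := by
    rw [← Matrix.transpose_map, ← Matrix.map_mul, ← Matrix.map_mul, hA]
  have hS : (SM n)ᵀ = SM n := by rw [SM, Matrix.diagonal_transpose]
  have hI : (SI n)ᵀ = SI n := by rw [SI, Matrix.diagonal_transpose]
  unfold cj
  rw [Matrix.transpose_mul, Matrix.transpose_mul, hS, hI]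
  calc SI n * ((A.map s1)ᵀ * SM n) * eta n * (SM n * A.map s1 * SI n)
      = SI n * ((A.map s1)ᵀ * (SM n * eta n * SM n) * A.map s1) * SI n := by
        simp only [Matrix.mul_assoc]
    _ = SI n * (SM n * eta n * SM n) * SI n := by rw [eta_SM, h1]
    _ = (SI n * SM n) * eta n * (SM n * SI n) := by simp only [Matrix.mul_assoc]
    _ = eta n := by rw [SI_SM, SM_SI, Matrix.one_mul, Matrix.mul_one]

/-- the orthogonal group over `ℤ[√2]`, as a predicate -/
def IsO (A : Matrix (Fin (n + 1)) (Fin (n + 1)) O) : Prop :=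
  Aᵀ * FO n * A = FO n ∧ 0 < s1 (A 0 0)

theorem IsO.isLor {A : Matrix (Fin (n + 1)) (Fin (n + 1)) O} (hA : IsO A) : IsLor (cj A) :=
  ⟨cj_lor hA.1, by rw [cj_zz]; exact hA.2⟩

/-- from two bases of the same type to an element of the orthogonal group -/
theorem transfer {m : ℕ} {β γ : Fin m → Fin (n + 1) → O}
    (hβ : ∀ x, ∃ c : Fin m → ℤ, x = ∑ j, c j • β j)
    (hβ0 : ∀ c : Fin m → ℤ, ∑ j, c j • β j = 0 → c = 0)
    (hfo : ∀ i j, fo (β i) (β j) = fo (γ i) (γ j)) (M : Fin m → Fin m → ℤ)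
    (hM : ∀ i, rt • β i = ∑ j, M i j • β j) (hM' : ∀ i, rt • γ i = ∑ j, M i j • γ j) :
    ∃ A : Matrix (Fin (n + 1)) (Fin (n + 1)) O, Aᵀ * FO n * A = FO n ∧
      ∀ i, A *ᵥ β i = γ i := by
  have hli : LinearIndependent ℤ β := by
    rw [Fintype.linearIndependent_iff]
    intro c hc i
    rw [hβ0 c hc]
    rfl
  have hsp : ⊤ ≤ Submodule.span ℤ (Set.range β) := by
    intro x _
    obtain ⟨c, rfl⟩ := hβ x
    exact Submodule.sum_mem _ fun j _ => Submodule.smul_mem _ _ (Submodule.subset_span ⟨j, rfl⟩)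
  let B : Module.Basis (Fin m) ℤ (Fin (n + 1) → O) := Module.Basis.mk hli hsp
  have hB : ∀ i, B i = β i := fun i => Module.Basis.mk_apply hli hsp i
  let φ : (Fin (n + 1) → O) →ₗ[ℤ] (Fin (n + 1) → O) := B.constr ℤ γ
  have hφ : ∀ i, φ (β i) = γ i := by
    intro i
    rw [← hB i]
    exact B.constr_basis ℤ γ i
  have hφs : ∀ c : Fin m → ℤ, φ (∑ j, c j • β j) = ∑ j, c j • γ j := by
    intro c
    rw [map_sum]
    exact Finset.sum_congr rfl fun j _ => by rw [map_zsmul, hφ]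
  have hrt : ∀ x, φ (rt • x) = rt • φ x := by
    intro x
    obtain ⟨c, rfl⟩ := hβ x
    rw [hφs, Finset.smul_sum, Finset.smul_sum, map_sum]
    refine Finset.sum_congr rfl fun j _ => ?_
    rw [smul_comm, smul_comm rt, map_zsmul, hM, hφs, hM']
  let Φ : (Fin (n + 1) → O) →ₗ[O] (Fin (n + 1) → O) :=
    { toFun := φ
      map_add' := φ.map_add
      map_smul' := by
        intro z x
        have hz : z = (z.re : O) + (z.im : O) * rt := by ext <;> simp [rt]
        have h1 : ∀ y : Fin (n + 1) → O, z • y = z.re • y + z.im • (rt • y) := by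
          intro y
          conv_lhs => rw [hz, add_smul, mul_smul, Int.cast_smul_eq_zsmul, Int.cast_smul_eq_zsmul]
        rw [RingHom.id_apply, h1, h1, map_add, map_zsmul, map_zsmul, hrt] }
  refine ⟨LinearMap.toMatrix' Φ, ?_, ?_⟩
  · have hf : ∀ x y, fo (Φ x) (Φ y) = fo x y := by
      have hadd : ∀ x y z : Fin (n + 1) → O, fo (x + y) z = fo x z + fo y z := by
        intro x y z; simp only [fo_eq, add_dotProduct]
      have hadd' : ∀ x y z : Fin (n + 1) → O, fo z (x + y) = fo z x + fo z y := by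
        intro x y z; simp only [fo_eq, Matrix.mulVec_add, dotProduct_add]
      let f1 : (Fin (n + 1) → O) →+ (Fin (n + 1) → O) →+ O :=
        AddMonoidHom.mk' (fun x => AddMonoidHom.mk' (fun y => fo x y) fun y z => hadd' y z x)
          fun x y => AddMonoidHom.ext fun z => hadd x y z
      have hsum : ∀ (c d : Fin m → ℤ) (u w : Fin m → Fin (n + 1) → O),
          fo (∑ j, c j • u j) (∑ j, d j • w j) = ∑ i, ∑ j, c i • d j • fo (u i) (w j) := by
        intro c d u w
        change f1 _ _ = _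
        rw [map_sum f1, AddMonoidHom.finsetSum_apply]
        refine Finset.sum_congr rfl fun i _ => ?_
        rw [map_sum]
        refine Finset.sum_congr rfl fun j _ => ?_
        rw [map_zsmul f1, map_zsmul, AddMonoidHom.smul_apply, smul_comm]
        rfl
      intro x y
      obtain ⟨c, rfl⟩ := hβ x
      obtain ⟨d, rfl⟩ := hβ y
      change fo (φ _) (φ _) = _
      rw [hφs, hφs, hsum, hsum]
      simp only [hfo]
    have h3 : ∀ x y, x ⬝ᵥ (((LinearMap.toMatrix' Φ)ᵀ * FO n * LinearMap.toMatrix' Φ) *ᵥ y) =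
        x ⬝ᵥ (FO n *ᵥ y) := by
      intro x y
      rw [← fo_eq, ← hf, fo_eq, ← LinearMap.toMatrix'_mulVec, ← LinearMap.toMatrix'_mulVec]
      rw [← Matrix.mulVec_mulVec, ← Matrix.mulVec_mulVec, Matrix.dotProduct_mulVec,
        Matrix.vecMul_transpose]
    exact Matrix.ext_iff_mulVec.2 fun y => by
      funext i
      have := h3 (Pi.single i 1) y
      rw [single_one_dotProduct, single_one_dotProduct] at this
      exact this
  · intro i
    rw [LinearMap.toMatrix'_mulVec]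
    exact hφ i

/-- `v1` of an integral combination -/
theorem v1_comb {m : ℕ} (c : Fin m → ℤ) (β : Fin m → Fin (n + 1) → O) :
    v1 (∑ j, c j • β j) = ∑ j, (c j : ℝ) • v1 (β j) := by
  let f : (Fin (n + 1) → O) →+ (Fin (n + 1) → ℝ) := AddMonoidHom.mk' v1 v1_add
  change f _ = _
  rw [map_sum]
  refine Finset.sum_congr rfl fun j _ => ?_
  rw [map_zsmul, Int.cast_smul_eq_zsmul]
  rfl

theorem lf_bound {g : Matrix (Fin (n + 1)) (Fin (n + 1)) ℝ} (hg : IsLor g)
    (x y : Fin (n + 1) → O) {R : ℝ} (hx : ‖vec g x‖ ≤ R) (hy : ‖vec g y‖ ≤ R) :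
    |s1 (fo x y)| ≤ R ^ 2 ∧ |s2 (fo x y)| ≤ R ^ 2 := by
  have hR : 0 ≤ R := (norm_nonneg _).trans hx
  have key : ∀ a b : K n → ℝ, (∀ k, |a k| ≤ |vec g x k|) → (∀ k, |b k| ≤ |vec g y k|) →
      |∑ k, a k * b k| ≤ R ^ 2 := by
    intro a b ha hb
    have h1 : (∑ k, a k * b k) ^ 2 ≤ (∑ k, a k ^ 2) * ∑ k, b k ^ 2 :=
      Finset.sum_mul_sq_le_sq_mul_sq _ _ _
    have h2 : ∑ k, a k ^ 2 ≤ R ^ 2 := by
      calc ∑ k, a k ^ 2 ≤ ∑ k, vec g x k ^ 2 :=
            Finset.sum_le_sum fun k _ => sq_le_sq.2 (ha k)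
        _ = ‖vec g x‖ ^ 2 := by
            rw [EuclideanSpace.norm_sq_eq]
            exact Finset.sum_congr rfl fun k _ => by rw [Real.norm_eq_abs, sq_abs]
        _ ≤ R ^ 2 := by gcongr
    have h3 : ∑ k, b k ^ 2 ≤ R ^ 2 := by
      calc ∑ k, b k ^ 2 ≤ ∑ k, vec g y k ^ 2 :=
            Finset.sum_le_sum fun k _ => sq_le_sq.2 (hb k)
        _ = ‖vec g y‖ ^ 2 := by
            rw [EuclideanSpace.norm_sq_eq]
            exact Finset.sum_congr rfl fun k _ => by rw [Real.norm_eq_abs, sq_abs]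
        _ ≤ R ^ 2 := by gcongr
    have h4 : (∑ k, a k * b k) ^ 2 ≤ (R ^ 2) ^ 2 := by
      refine h1.trans ?_
      rw [sq (R ^ 2)]
      exact mul_le_mul h2 h3 (Finset.sum_nonneg fun k _ => sq_nonneg _) (sq_nonneg _)
    exact abs_le_of_sq_le_sq h4 (sq_nonneg _)
  constructor
  · rw [← lf_v1, ← lor_lf hg.1]
    have h := key (Sum.elim (Fin.cons (-(g *ᵥ v1 x) 0) fun i => (g *ᵥ v1 x) i.succ) 0)
      (Sum.elim (g *ᵥ v1 y) 0) (by
        rintro (k | k)
        · refine Fin.cases ?_ (fun i => ?_) k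
          · simp [vec]
          · simp [vec]
        · simp) (by
        rintro (k | k)
        · simp [vec]
        · simp)
    rw [Fintype.sum_sum_type] at h
    simp only [Sum.elim_inl, Sum.elim_inr, Pi.zero_apply, mul_zero, Finset.sum_const_zero,
      add_zero, Fin.sum_univ_succ, Fin.cons_zero, Fin.cons_succ, neg_mul] at h
    exact h
  · rw [← dot_v2]
    have h := key (Sum.elim 0 (v2 x)) (Sum.elim 0 (v2 y)) (by
        rintro (k | k) <;> simp [vec]) (by
        rintro (k | k) <;> simp [vec])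
    rw [Fintype.sum_sum_type] at h
    simp only [Sum.elim_inl, Sum.elim_inr, Pi.zero_apply, mul_zero, Finset.sum_const_zero,
      zero_add] at h
    exact h

theorem neg_lor {A : Matrix (Fin (n + 1)) (Fin (n + 1)) O} (hA : Aᵀ * FO n * A = FO n) :
    (-A)ᵀ * FO n * (-A) = FO n := by
  rw [Matrix.transpose_neg, Matrix.neg_mul, Matrix.neg_mul, Matrix.mul_neg, neg_neg, hA]

/-- **Cocompactness** of the orthogonal group. -/
theorem cocpt (n : ℕ) : ∃ C : ℝ, ∀ y : E n, ∃ A : Matrix (Fin (n + 1)) (Fin (n + 1)) O,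
    IsO A ∧ y0 (act (li (cj A)) y) ≤ C := by
  classical
  obtain ⟨R, hR1, hgood⟩ := good n
  have hR0 : 0 < R := by linarith
  choose β hβ hβ0 hβR hβc using fun y : E n => hgood (boost y) (isLor_boost y)
  choose M hM using fun (y : E n) (i) => hβ y (rt • β y i)
  choose c hc using fun y : E n => hβ y (Pi.single 0 1)
  let τ : E n → (Fin (Fintype.card (K n)) → Fin (Fintype.card (K n)) → O) ×
      (Fin (Fintype.card (K n)) → Fin (Fintype.card (K n)) → ℤ) :=
    fun y => (fun i j => fo (β y i) (β y j), M y)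
  have hfin : (Set.range τ).Finite := by
    refine Set.Finite.subset (s := (Set.pi Set.univ fun _ => Set.pi Set.univ fun _ =>
      {z : O | |s1 z| ≤ R ^ 2 ∧ |s2 z| ≤ R ^ 2}) ×ˢ
      (Set.pi Set.univ fun _ => Set.pi Set.univ fun _ => Set.Icc (-⌈R * (2 * R)⌉) ⌈R * (2 * R)⌉)) ?_ ?_
    · refine Set.Finite.prod ?_ ?_
      · exact Set.Finite.pi fun _ => Set.Finite.pi fun _ => finite_O _
      · exact Set.Finite.pi fun _ => Set.Finite.pi fun _ => Set.finite_Icc _ _
    · rintro _ ⟨y, rfl⟩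
      refine ⟨fun i _ j _ => ?_, fun i _ j _ => ?_⟩
      · exact lf_bound (isLor_boost y) _ _ (hβR y i) (hβR y j)
      · have h1 := hβc y (M y i) j
        rw [← hM y i] at h1
        have h2 : ‖vec (boost y) (rt • β y i)‖ ≤ 2 * R := by
          have h3 := norm_vec_rt (boost y) (β y i)
          have h4 := hβR y i
          have h5 := norm_nonneg (vec (boost y) (β y i))
          have h6 := norm_nonneg (vec (boost y) (rt • β y i))
          nlinarith
        have h3 : |((M y i j : ℤ) : ℝ)| ≤ ⌈R * (2 * R)⌉ :=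
          h1.trans ((mul_le_mul_of_nonneg_left h2 hR0.le).trans (Int.le_ceil _))
        rw [abs_le] at h3
        constructor
        · have : ((-⌈R * (2 * R)⌉ : ℤ) : ℝ) ≤ M y i j := by push_cast; exact h3.1
          exact_mod_cast this
        · exact_mod_cast h3.2
  let Cy : E n → ℝ := fun y => R * (∑ j, |(c y j : ℝ)|) / r4
  obtain ⟨C, hC⟩ : ∃ C, ∀ y, ∃ y', τ y' = τ y ∧ Cy y' ≤ C := by
    choose! rep hrep using fun t (ht : t ∈ Set.range τ) => ht
    obtain ⟨C, hC⟩ := (hfin.image fun t => Cy (rep t)).bddAbove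
    exact ⟨C, fun y => ⟨rep (τ y), hrep _ ⟨y, rfl⟩, hC ⟨τ y, ⟨y, rfl⟩, rfl⟩⟩⟩
  refine ⟨C, fun y => ?_⟩
  obtain ⟨y', hτ, hCy⟩ := hC y
  have hτ1 : ∀ i j, fo (β y' i) (β y' j) = fo (β y i) (β y j) := fun i j =>
    congrFun (congrFun (congrArg Prod.fst hτ) i) j
  have hτ2 : M y' = M y := congrArg Prod.snd hτ
  obtain ⟨A, hA, hAβ⟩ := transfer (hβ y') (hβ0 y') hτ1 (M y') (hM y') (by
    intro i
    rw [hτ2]
    exact hM y i)
  -- the estimate
  have est : ∀ B : Matrix (Fin (n + 1)) (Fin (n + 1)) O, IsO B → (B = A ∨ B = -A) →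
      y0 (act (li (cj B)) y) ≤ C := by
    intro B hB hBA
    have hL := hB.isLor
    have e1 : cj B *ᵥ emb (act (li (cj B)) y) = emb y := by
      rw [emb_act (IsLor.li hL), Matrix.mulVec_mulVec]
      have : cj B * li (cj B) = 1 := mul_inv_lor hL.1
      rw [this, Matrix.one_mulVec]
    set z := act (li (cj B)) y with hz
    have e2 : ∀ j, |lf (v1 (β y' j)) (emb z)| ≤ R := by
      intro j
      have h1 : |lf (v1 (β y' j)) (emb z)| = |lf (v1 (β y j)) (emb y)| := by
        rw [← lor_lf hL.1, e1, cj_mulVec]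
        rcases hBA with rfl | rfl
        · rw [hAβ]
        · rw [Matrix.neg_mulVec, hAβ]
          have : v1 (-β y j) = -v1 (β y j) := by
            funext i
            simp only [v1, sc_apply, Pi.neg_apply, map_neg, mul_neg]
          rw [this, lf_comm, ← neg_one_smul ℝ, lf_smul_right, lf_comm, neg_one_mul, abs_neg]
      rw [h1, ← lor_lf (isLor_boost y).1, act_boost]
      have h2 : lf (boost y *ᵥ v1 (β y j)) (fun i => if i = 0 then (1 : ℝ) else 0) =
          -(vec (boost y) (β y j) (Sum.inl 0)) := by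
        simp [lf, vec, Fin.succ_ne_zero]
      rw [h2, abs_neg, ← Real.norm_eq_abs]
      exact (PiLp.norm_apply_le _ _).trans (hβR y j)
    have e3 : v1 (Pi.single 0 1 : Fin (n + 1) → O) = fun i => if i = 0 then r4 else 0 := by
      funext i
      refine Fin.cases ?_ (fun i => ?_) i
      · simp [v1, sc_zero]
      · simp [v1, sc_succ, Fin.succ_ne_zero]
    have e4 : lf (v1 (Pi.single 0 1 : Fin (n + 1) → O)) (emb z) = -(r4 * y0 z) := by
      rw [e3]
      simp [lf, emb_zero, Fin.succ_ne_zero]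
    have e5 : r4 * y0 z ≤ R * ∑ j, |(c y' j : ℝ)| := by
      have h1 : r4 * y0 z = |lf (v1 (Pi.single 0 1 : Fin (n + 1) → O)) (emb z)| := by
        rw [e4, abs_neg, abs_of_pos (mul_pos r4_pos (y0_pos z))]
      rw [h1, hc y', v1_comb, lf_comm, lf_sum_right, Finset.mul_sum]
      refine (Finset.abs_sum_le_sum_abs _ _).trans (Finset.sum_le_sum fun j _ => ?_)
      rw [lf_smul_right, abs_mul, mul_comm]
      rw [lf_comm]
      exact mul_le_mul_of_nonneg_right (e2 j) (abs_nonneg _)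
    refine le_trans ?_ hCy
    rw [le_div_iff₀ r4_pos]
    linarith
  have hcj := cj_lor hA
  have h00 : cj A 0 0 ^ 2 = 1 + ∑ i : Fin n, cj A 0 i.succ ^ 2 := row_zero hcj
  have h01 : 0 ≤ ∑ i : Fin n, cj A 0 i.succ ^ 2 := Finset.sum_nonneg fun i _ => sq_nonneg _
  have h02 : s1 (A 0 0) ≠ 0 := by
    intro h
    rw [cj_zz, h] at h00
    nlinarith
  rcases lt_or_gt_of_ne h02 with h | h
  · have hB : IsO (-A) := ⟨neg_lor hA, by rw [Matrix.neg_apply, map_neg]; linarith⟩
    exact ⟨-A, hB, est _ hB (Or.inr rfl)⟩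
  · exact ⟨A, ⟨hA, h⟩, est _ ⟨hA, h⟩ (Or.inl rfl)⟩

end Pool.Agent.Lib.MPdbccd7.LatM
end
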